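import Mathlib
import Pool.Agent.Lib_helper68.OG9
import Pool.Agent.Lib_helper80.CS.F.C8

/-!
# CP (MP_931ca8_lc): large sets and kernels
-/

set_option autoImplicit false
set_option linter.unusedSectionVars false

open Cardinal Ordinal Set

namespace Pool.Agent.CP

open Pool.Agent.H68.OG

/-- the first uncountable cardinal -/
noncomputable abbrev k1 : Cardinal.{0} := Cardinal.aleph 1

/-- the well-order of type `ω₁` -/
abbrev W1 : Type := k1.ord.ToType

theorem k1_reg : k1.IsRegular := Cardinal.isRegular_aleph_one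

theorem unc_iff {α : Type} (I : Set α) : ¬ I.Countable ↔ k1 ≤ #I := by
  have h : k1 = Order.succ ℵ₀ := Cardinal.succ_aleph0.symm
  rw [← Cardinal.le_aleph0_iff_set_countable, not_le, h, Order.succ_le_iff]

theorem cnt_iff {α : Type} (I : Set α) : I.Countable ↔ #I < k1 := by
  rw [← not_iff_not, unc_iff, not_lt]

theorem Iio_cnt (z : W1) : (Set.Iio z).Countable := by
  rw [cnt_iff]
  have h := Cardinal.mk_Iio_lt (α := W1) z (by
    rw [Cardinal.mk_toType, Cardinal.card_ord, Ordinal.type_toType])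
  rwa [Cardinal.mk_toType, Cardinal.card_ord] at h

theorem bound (S : Set W1) (hS : S.Countable) : ∃ b, ∀ x ∈ S, x < b :=
  exists_bound k1_reg S ((cnt_iff S).1 hS)

theorem univ_unc : ¬ (Set.univ : Set W1).Countable := by
  intro h
  obtain ⟨b, hb⟩ := bound _ h
  exact lt_irrefl _ (hb b trivial)

instance w1_nonempty : Nonempty W1 := by
  by_contra h
  rw [not_nonempty_iff] at h
  exact univ_unc (Set.to_countable _)

/-- unbounded sets are uncountable -/
theorem unc_of_unbdd (S : Set W1) (h : ∀ b, ∃ x ∈ S, b ≤ x) : ¬ S.Countable := by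
  intro hS
  obtain ⟨b, hb⟩ := bound S hS
  obtain ⟨x, hx, hbx⟩ := h b
  exact absurd (hb x hx) (not_lt.2 hbx)

theorem unbdd_of_unc (S : Set W1) (h : ¬ S.Countable) (b : W1) : ∃ x ∈ S, b ≤ x := by
  by_contra hcon
  push Not at hcon
  exact h ((Iio_cnt b).mono fun x hx => hcon x hx)

/-- countable unions -/
theorem unc_union {α : Type} {ι : Type} [Countable ι] (S : Set α) (T : ι → Set α)
    (h : ¬ S.Countable) (hc : S ⊆ ⋃ n, T n) : ∃ n, ¬ (S ∩ T n).Countable := by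
  by_contra hcon
  push Not at hcon
  refine h ((Set.countable_iUnion hcon).mono ?_)
  intro x hx
  obtain ⟨n, hn⟩ := Set.mem_iUnion.1 (hc hx)
  exact Set.mem_iUnion.2 ⟨n, hx, hn⟩

/-- the sparse subset, general form -/
theorem sparse2 (h β : W1 → W1) (Z : Set W1) (hZ : ¬ Z.Countable) :
    ∃ Z' ⊆ Z, ¬ Z'.Countable ∧ ∀ z ∈ Z', ∃ g, g ≤ z ∧ β g ≤ z ∧ ∀ w ∈ Z', w < z → h w < g := by
  classical
  -- the next element of `Z`
  choose nz hnz1 hnz2 using unbdd_of_unc Z hZ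
  let F : W1 → W1 := fun g => nz (max g (β g))
  have hF1 : ∀ g, g ≤ F g := fun g => (le_max_left _ _).trans (hnz2 _)
  have hF2 : ∀ g, β g ≤ F g := fun g => (le_max_right _ _).trans (hnz2 _)
  -- closure points
  have hcl : ∀ g0 : W1, ∃ g, g0 ≤ g ∧ ∀ z, z < g → h (F z) < g ∧ F z < g := by
    intro g0
    obtain ⟨g, hg0, hg⟩ := Pool.Agent.CS.closure (V := W1) (Ω := W1) bound id
      (fun z => (Iio_cnt z)) (fun n N => if n = 0 then N.toList.head?.map (fun z => h (F z))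
        else N.toList.head?.map F) g0
    refine ⟨g, hg0, fun z hz => ⟨?_, ?_⟩⟩
    · refine hg 0 {z} ?_ (h (F z)) ?_
      · intro w hw
        rw [Finset.mem_singleton.1 hw]
        exact hz
      · simp
    · refine hg 1 {z} ?_ (F z) ?_
      · intro w hw
        rw [Finset.mem_singleton.1 hw]
        exact hz
      · simp
  refine ⟨{z | z ∈ Z ∧ ∃ g, z = F g ∧ ∀ w, w < g → h (F w) < g ∧ F w < g},
    fun z hz => hz.1, ?_, ?_⟩
  · refine unc_of_unbdd _ ?_
    intro b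
    obtain ⟨g, hg0, hg⟩ := hcl b
    exact ⟨F g, ⟨hnz1 _, g, rfl, hg⟩, hg0.trans (hF1 g)⟩
  · rintro z ⟨-, g, rfl, hg⟩
    refine ⟨g, hF1 g, hF2 g, ?_⟩
    rintro w ⟨-, g', rfl, hg'⟩ hlt
    have h1 : g' < g := by
      by_contra hcon
      rw [not_lt] at hcon
      rcases hcon.eq_or_lt with h2 | h2
      · rw [h2] at hlt
        exact lt_irrefl _ hlt
      · have h3 := (hg' g h2).2
        exact absurd (hlt.trans h3) (not_lt.2 (hF1 g'))
    exact (hg g' h1).1

/-- the sparse subset -/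
theorem sparse (β : W1 → W1) (Z : Set W1) (hZ : ¬ Z.Countable) :
    ∃ Z' ⊆ Z, ¬ Z'.Countable ∧ ∀ z ∈ Z', ∀ z' ∈ Z', z < z' → β z < z' := by
  obtain ⟨Z', h1, h2, h3⟩ := sparse2 β id Z hZ
  refine ⟨Z', h1, h2, ?_⟩
  intro z hz z' hz' hlt
  obtain ⟨g, hg1, -, hg2⟩ := h3 z' hz'
  exact (hg2 z hz hlt).trans_le hg1

/-- weak Delta systems -/
theorem weak_delta {P : Type} (F : W1 → Finset P) (Z : Set W1) (hZ : ¬ Z.Countable) :
    ∃ Z' ⊆ Z, ¬ Z'.Countable ∧ ∃ (R : Finset P) (n : ℕ), (∀ z ∈ Z', R ⊆ F z ∧ (F z).card = n) ∧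
      ∀ p ∉ R, {z | z ∈ Z' ∧ p ∈ F z}.Countable := by
  classical
  obtain ⟨n, hn⟩ := unc_union Z (fun n => {z | (F z).card = n}) hZ
    (fun z _ => Set.mem_iUnion.2 ⟨_, rfl⟩)
  -- a root of maximal size
  have hex : ∃ k, ∃ R : Finset P, n = R.card + k ∧
      ¬ {z | z ∈ Z ∧ (F z).card = n ∧ R ⊆ F z}.Countable := by
    refine ⟨n, ∅, by simp, ?_⟩
    refine fun h => hn (h.mono ?_)
    rintro z ⟨hz1, hz2⟩
    exact ⟨hz1, hz2, Finset.empty_subset _⟩
  obtain ⟨R, hR1, hR2⟩ := Nat.find_spec hex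
  refine ⟨{z | z ∈ Z ∧ (F z).card = n ∧ R ⊆ F z}, fun z hz => hz.1, hR2, R, n,
    fun z hz => ⟨hz.2.2, hz.2.1⟩, ?_⟩
  intro p hp
  by_contra hcon
  have hne : {z | z ∈ {z | z ∈ Z ∧ (F z).card = n ∧ R ⊆ F z} ∧ p ∈ F z}.Nonempty := by
    rw [Set.nonempty_iff_ne_empty]
    intro h
    rw [h] at hcon
    exact hcon Set.countable_empty
  obtain ⟨z, ⟨-, hz2, hz3⟩, hz4⟩ := hne
  have hcard : (insert p R).card = R.card + 1 := Finset.card_insert_of_notMem hp
  have hle : (insert p R).card ≤ n := by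
    rw [← hz2]
    exact Finset.card_le_card (Finset.insert_subset hz4 hz3)
  refine Nat.find_min hex (m := Nat.find hex - 1) (by omega) ⟨insert p R, by omega, ?_⟩
  refine fun h => hcon (h.mono ?_)
  rintro w ⟨⟨hw1, hw2, hw3⟩, hw4⟩
  exact ⟨hw1, hw2, Finset.insert_subset hw4 hw3⟩

/-- codings with infinite images -/
theorem coding {V : Type} (r : V → W1) (hr : Function.Injective r) (Y : W1 → Set V)
    (hY : ∀ z, (Y z).Infinite) (hYc : ∀ z, (Y z).Countable) (Z : Set W1) (hZ : ¬ Z.Countable) :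
    ∃ ν : V → ℕ, ∃ Z' ⊆ Z, ¬ Z'.Countable ∧ ∀ z ∈ Z', (ν '' Y z).Infinite := by
  classical
  by_cases hA : ∃ A : Set V, A.Countable ∧ ¬ {z | z ∈ Z ∧ (Y z ∩ A).Infinite}.Countable
  · obtain ⟨A, hA, hZ'⟩ := hA
    obtain ⟨c, hc⟩ := Set.countable_iff_exists_injOn.mp hA
    refine ⟨c, _, fun z hz => hz.1, hZ', ?_⟩
    rintro z ⟨-, hz⟩
    exact (hz.image (hc.mono Set.inter_subset_right)).mono (Set.image_mono Set.inter_subset_left)
  · push Not at hA
    -- the bound of `Y z`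
    have hh : ∀ z, ∃ b, ∀ y ∈ Y z, r y < b := by
      intro z
      obtain ⟨b, hb⟩ := bound (r '' Y z) ((hYc z).image r)
      exact ⟨b, fun y hy => hb _ ⟨y, hy, rfl⟩⟩
    choose h hh using hh
    have hcA : ∀ b : W1, {y | r y < b}.Countable := fun b =>
      (Iio_cnt b).preimage_of_injOn hr.injOn
    have hbad : ∀ g : W1, ∃ b, ∀ z' ∈ Z, b ≤ z' → (Y z' ∩ {y | r y < g}).Finite := by
      intro g
      obtain ⟨b, hb⟩ := bound _ (hA _ (hcA g))
      refine ⟨b, fun z' hz' hbz => ?_⟩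
      by_contra hcon
      exact absurd (hb z' ⟨hz', hcon⟩) (not_lt.2 hbz)
    choose β hβ using hbad
    obtain ⟨Z', hZ'Z, hZ', hs⟩ := sparse2 h β Z hZ
    choose! g hg1 hg2 hg3 using hs
    -- the new part of `Y z`
    let D : W1 → Set V := fun z => Y z \ {y | r y < g z}
    have hDinf : ∀ z ∈ Z', (D z).Infinite := by
      intro z hz
      have h1 := hβ (g z) z (hZ'Z hz) (hg2 z hz)
      have h2 : D z = Y z \ (Y z ∩ {y | r y < g z}) := by
        ext y
        simp only [D, Set.mem_sdiff, Set.mem_inter_iff, not_and]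
        exact ⟨fun h => ⟨h.1, fun _ => h.2⟩, fun h => ⟨h.1, h.2 h.1⟩⟩
      rw [h2]
      exact (hY z).sdiff h1
    have hDlt : ∀ z ∈ Z', ∀ w ∈ Z', w < z → ∀ y, y ∈ D w → y ∉ D z := by
      intro z hz w hw hlt y hyw hyz
      exact hyz.2 ((hh w y hyw.1).trans (hg3 z hz w hw hlt))
    have hDu : ∀ z ∈ Z', ∀ w ∈ Z', ∀ y, y ∈ D w → y ∈ D z → w = z := by
      intro z hz w hw y hyw hyz
      rcases lt_trichotomy w z with h1 | h1 | h1
      · exact absurd hyz (hDlt z hz w hw h1 y hyw)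
      · exact h1
      · exact absurd hyw (hDlt w hw z hz h1 y hyz)
    have hc : ∀ z, ∃ c : V → ℕ, Set.InjOn c (Y z) := fun z =>
      Set.countable_iff_exists_injOn.mp (hYc z)
    choose c hc using hc
    refine ⟨fun y => if hex : ∃ z, z ∈ Z' ∧ y ∈ D z then c hex.choose y else 0, Z', hZ'Z, hZ', ?_⟩
    intro z hz
    have h1 : ((c z) '' D z).Infinite := (hDinf z hz).image ((hc z).mono Set.sdiff_subset)
    refine h1.mono ?_
    rintro n ⟨y, hy, rfl⟩
    refine ⟨y, hy.1, ?_⟩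
    have hex : ∃ z, z ∈ Z' ∧ y ∈ D z := ⟨z, hz, hy⟩
    show (if hex : ∃ z, z ∈ Z' ∧ y ∈ D z then c hex.choose y else 0) = c z y
    rw [dif_pos hex, hDu z hz _ hex.choose_spec.1 y hex.choose_spec.2 hy]

end Pool.Agent.CP
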