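import Mathlib
import Pool.Agent.Lib_helper80.CP.Base

/-!
# CP: large sets and kernels
-/

set_option autoImplicit false
set_option linter.unusedSectionVars false

open Cardinal Ordinal Set

namespace Pool.Agent.CP

open Pool.Agent.H68.OG

variable {V : Type} [LinearOrder V] [WellFoundedLT V] [Nonempty V]

theorem card_nat_lt (m : ℕ) : (m : Ordinal.{0}).card < ℵ₀ := by
  rw [Ordinal.card_nat]
  exact Cardinal.natCast_lt_aleph0

/-- `ω₁ ^ m` is σ-indecomposable -/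
theorem tg_sig (m : ℕ) (A : Set V) (hA : TG A (k1.ord ^ (m : Ordinal.{0}))) (Y : ℕ → Set V)
    (hY : A ⊆ ⋃ n, Y n) : ∃ n, TG (A ∩ Y n) (k1.ord ^ (m : Ordinal.{0})) := by
  classical
  obtain ⟨k, -, hk⟩ := exists_large (κ := k1) (μ := ℵ₀) k1_reg Cardinal.isRegular_aleph0
    (ι := ℕ) (by rw [Cardinal.mk_nat]; exact Cardinal.aleph0_lt_aleph_one)
    (fun k => ⋃ n ∈ Finset.range k, Y n) (m : Ordinal.{0}) (card_nat_lt m) A hA Set.univ
    (by rw [Cardinal.mk_univ, Cardinal.mk_nat]) (by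
      intro v hv
      obtain ⟨n, hn⟩ := Set.mem_iUnion.1 (hY hv)
      rw [Cardinal.lt_aleph0_iff_set_finite]
      refine (Set.finite_Iic n).subset ?_
      rintro k ⟨-, hk⟩
      by_contra hcon
      refine hk (Set.mem_biUnion (x := n) ?_ hn)
      have h2 : n < k := not_le.1 hcon
      simpa using h2)
  -- finite unions
  have key : ∀ k : ℕ, ∀ A : Set V, TG A (k1.ord ^ (m : Ordinal.{0})) →
      A ⊆ (⋃ n ∈ Finset.range k, Y n) → ∃ n, TG (A ∩ Y n) (k1.ord ^ (m : Ordinal.{0})) := by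
    intro k
    induction k with
    | zero =>
      intro A hA hk
      obtain ⟨v, hv⟩ := hA.nonempty (Ordinal.opow_pos _ (zero_lt_one.trans (one_lt_ord k1_reg)))
      have := hk hv
      simp at this
    | succ k ih =>
      intro A hA hk
      rcases two_parts k1_reg (⋃ n ∈ Finset.range k, Y n) (Y k) (m : Ordinal.{0}) A (by
        intro v hv
        obtain ⟨n, hn, hvn⟩ := Set.mem_iUnion₂.1 (hk hv)
        rw [Finset.mem_range] at hn
        rcases Nat.lt_succ_iff_lt_or_eq.1 hn with h | h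
        · exact Or.inl (Set.mem_biUnion (x := n) (by simpa using h) hvn)
        · exact Or.inr (h ▸ hvn)) hA with h | h
      · obtain ⟨n, hn⟩ := ih _ h Set.inter_subset_right
        refine ⟨n, hn.mono ?_⟩
        rintro v ⟨⟨hv1, -⟩, hv2⟩
        exact ⟨hv1, hv2⟩
      · exact ⟨k, h⟩
  obtain ⟨n, hn⟩ := key k _ hk Set.inter_subset_right
  refine ⟨n, hn.mono ?_⟩
  rintro v ⟨⟨hv1, -⟩, hv2⟩
  exact ⟨hv1, hv2⟩

/-- `X` is large in uncountably many blocks -/
def Large (m : ℕ) (B : W1 → Set V) (X : Set V) : Prop :=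
  ¬ {i : W1 | TG (X ∩ B i) (k1.ord ^ (m : Ordinal.{0}))}.Countable

theorem Large.mono {m : ℕ} {B : W1 → Set V} {X Y : Set V} (h : Large m B X) (hXY : X ⊆ Y) :
    Large m B Y := by
  refine fun hc => h (hc.mono ?_)
  intro i hi
  exact TG.mono (Set.inter_subset_inter_left _ hXY) hi

theorem Large.nonempty {m : ℕ} {B : W1 → Set V} {X : Set V} (h : Large m B X) : X.Nonempty := by
  have hne : {i : W1 | TG (X ∩ B i) (k1.ord ^ (m : Ordinal.{0}))}.Nonempty := by
    rw [Set.nonempty_iff_ne_empty]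
    intro h0
    unfold Large at h
    rw [h0] at h
    exact h Set.countable_empty
  obtain ⟨i, hi⟩ := hne
  obtain ⟨v, hv⟩ := TG.nonempty (Ordinal.opow_pos _ (zero_lt_one.trans (one_lt_ord k1_reg))) hi
  exact ⟨v, hv.1⟩

/-- large sets form the complement of a σ-ideal -/
theorem Large.sig {m : ℕ} {B : W1 → Set V} {X : Set V} (h : Large m B X) (Y : ℕ → Set V)
    (hY : X ⊆ ⋃ n, Y n) : ∃ n, Large m B (X ∩ Y n) := by
  obtain ⟨n, hn⟩ := unc_union _ (fun n => {i : W1 | TG ((X ∩ Y n) ∩ B i) (k1.ord ^ (m : Ordinal.{0}))})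
    h (by
      intro i hi
      obtain ⟨n, hn⟩ := tg_sig m _ hi Y (Set.inter_subset_left.trans hY)
      refine Set.mem_iUnion.2 ⟨n, hn.mono ?_⟩
      rintro v ⟨⟨hv1, hv2⟩, hv3⟩
      exact ⟨⟨hv1, hv3⟩, hv2⟩)
  refine ⟨n, fun hc => hn (hc.mono ?_)⟩
  rintro i ⟨-, hi⟩
  exact hi

theorem Large.sig' {m : ℕ} {B : W1 → Set V} {X : Set V} (h : Large m B X) {ι : Type} [Countable ι]
    (Y : ι → Set V) (hY : X ⊆ ⋃ n, Y n) : ∃ n, Large m B (X ∩ Y n) := by
  classical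
  rcases isEmpty_or_nonempty ι with hE | hN
  · obtain ⟨v, hv⟩ := h.nonempty
    obtain ⟨n, -⟩ := Set.mem_iUnion.1 (hY hv)
    exact hE.elim n
  · obtain ⟨e, he⟩ := exists_surjective_nat ι
    obtain ⟨n, hn⟩ := h.sig (fun n => Y (e n)) (by
      intro v hv
      obtain ⟨k, hk⟩ := Set.mem_iUnion.1 (hY hv)
      obtain ⟨n, rfl⟩ := he k
      exact Set.mem_iUnion.2 ⟨n, hk⟩)
    exact ⟨e n, hn⟩

/-- countably many small sets can be removed -/
theorem Large.remove {m : ℕ} {B : W1 → Set V} {X : Set V} (h : Large m B X) {P : Set V}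
    (hP : P.Countable) (Y : V → Set V) (hY : ∀ p ∈ P, ¬ Large m B (X ∩ Y p)) :
    Large m B (X \ ⋃ p ∈ P, Y p) := by
  classical
  have hc : Countable P := hP.to_subtype
  obtain ⟨n, hn⟩ := h.sig' (ι := Option P) (fun o => match o with
    | none => X \ ⋃ p ∈ P, Y p
    | some p => Y p.1) (by
      intro v hv
      by_cases h1 : v ∈ ⋃ p ∈ P, Y p
      · obtain ⟨p, hp, hvp⟩ := Set.mem_iUnion₂.1 h1
        exact Set.mem_iUnion.2 ⟨some ⟨p, hp⟩, hvp⟩
      · exact Set.mem_iUnion.2 ⟨none, hv, h1⟩)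
  cases n with
  | none => exact hn.mono Set.inter_subset_right
  | some p => exact absurd hn (hY p.1 p.2)

/-- an uncountable set of indices is the union of countably many uncountable ones -/
theorem split_unc (I : Set W1) (hI : ¬ I.Countable) :
    ∃ k : W1 → ℕ, ∀ c, ¬ {i | i ∈ I ∧ k i = c}.Countable := by
  classical
  have h1 : k1 ≤ #I := (unc_iff I).1 hI
  have h2 : #(I × ℕ) = #I := by
    rw [Cardinal.mk_prod, Cardinal.lift_id, Cardinal.lift_id, Cardinal.mk_nat]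
    exact Cardinal.mul_eq_left ((Cardinal.aleph0_le_aleph 1).trans h1)
      ((Cardinal.aleph0_le_aleph 1).trans h1) Cardinal.aleph0_ne_zero
  obtain ⟨e⟩ := Cardinal.eq.1 h2.symm
  refine ⟨fun i => if h : i ∈ I then (e ⟨i, h⟩).2 else 0, fun c => ?_⟩
  rw [unc_iff]
  refine h1.trans ?_
  refine Cardinal.mk_le_of_injective (f := fun x : I =>
    (⟨(e.symm (x, c)).1, (e.symm (x, c)).2, ?_⟩ : {i | i ∈ I ∧
      (if h : i ∈ I then (e ⟨i, h⟩).2 else 0) = c})) ?_
  · rw [dif_pos (e.symm (x, c)).2]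
    simp
  · intro x y hxy
    have h3 := congrArg Subtype.val hxy
    have h4 : e.symm (x, c) = e.symm (y, c) := Subtype.ext h3
    have h5 := e.symm.injective h4
    exact congrArg Prod.fst h5

/-- splitting a large set -/
theorem Large.split {m : ℕ} {B : W1 → Set V} {X : Set V} (h : Large m B X) :
    ∃ k : W1 → ℕ, ∀ c, Large m B (X ∩ {x | ∃ i, x ∈ B i ∧ k i = c}) := by
  obtain ⟨k, hk⟩ := split_unc _ h
  refine ⟨k, fun c hc => hk c (hc.mono ?_)⟩
  rintro i ⟨hi, hic⟩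
  refine TG.mono ?_ hi
  rintro v ⟨hv1, hv2⟩
  exact ⟨⟨hv1, i, hv2, hic⟩, hv2⟩

/-- kernels -/
theorem kernel {m : ℕ} {B : W1 → Set V} {X : Set V} (h : Large m B X) (out : V → Finset V) :
    ∃ S ⊆ X, Large m B S ∧ ∃ (n : ℕ) (R : Finset V), (∀ x ∈ S, (out x).card = n ∧ R ⊆ out x) ∧
      ∀ p ∉ R, ¬ Large m B {x | x ∈ S ∧ p ∈ out x} := by
  classical
  obtain ⟨n, hn⟩ := h.sig (fun n => {x | (out x).card = n}) (fun x _ => Set.mem_iUnion.2 ⟨_, rfl⟩)
  have hex : ∃ k, ∃ R : Finset V, n = R.card + k ∧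
      Large m B {x | x ∈ X ∧ (out x).card = n ∧ R ⊆ out x} := by
    refine ⟨n, ∅, by simp, hn.mono ?_⟩
    rintro x ⟨hx1, hx2⟩
    exact ⟨hx1, hx2, Finset.empty_subset _⟩
  obtain ⟨R, hR1, hR2⟩ := Nat.find_spec hex
  refine ⟨{x | x ∈ X ∧ (out x).card = n ∧ R ⊆ out x}, fun x hx => hx.1, hR2, n, R,
    fun x hx => ⟨hx.2.1, hx.2.2⟩, ?_⟩
  intro p hp hL
  obtain ⟨x, ⟨-, hx2, hx3⟩, hx4⟩ := hL.nonempty
  have hcard : (insert p R).card = R.card + 1 := Finset.card_insert_of_notMem hp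
  have hle : (insert p R).card ≤ n := by
    rw [← hx2]
    exact Finset.card_le_card (Finset.insert_subset hx4 hx3)
  refine Nat.find_min hex (m := Nat.find hex - 1) (by omega) ⟨insert p R, by omega, hL.mono ?_⟩
  rintro w ⟨⟨hw1, hw2, hw3⟩, hw4⟩
  exact ⟨hw1, hw2, Finset.insert_subset hw4 hw3⟩

end Pool.Agent.CP
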