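import Mathlib
import Pool.Agent.Lib_helper80.CP.Large

/-!
# CP: the blocks of `ω₁ ^ (ω + 2)` and the final type
-/

set_option autoImplicit false
set_option linter.unusedSectionVars false

open Cardinal Ordinal Set

namespace Pool.Agent.CP

open Pool.Agent.H68.OG

variable {V : Type} [LinearOrder V] [WellFoundedLT V] [Nonempty V]

theorem one_lt_k : 1 < k1.ord := one_lt_ord k1_reg

theorem absorb (n : ℕ) : k1.ord ^ (n : Ordinal.{0}) + k1.ord ^ ω = k1.ord ^ ω := by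
  refine Ordinal.IsPrincipal.add_eq_right ?_ ?_
  · exact Ordinal.isPrincipal_add_opow_of_isPrincipal_add
      (Ordinal.isPrincipal_add_ord (Cardinal.aleph0_le_aleph 1)) ω
  · exact (Ordinal.opow_lt_opow_iff_right one_lt_k).2 (Ordinal.natCast_lt_omega0 n)

theorem pieces (A : Set V) (hA : TG A (k1.ord ^ ω)) :
    ∃ C : ℕ → Set V, (∀ n, C n ⊆ A ∧ TG (C n) (k1.ord ^ (n : Ordinal.{0}))) ∧
      ∀ m n, m < n → ∀ x ∈ C m, ∀ y ∈ C n, x < y := by
  classical
  have step : ∀ (n : ℕ) (X : {X : Set V // TG X (k1.ord ^ ω)}), ∃ S T : Set V,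
      S ⊆ X.1 ∧ T ⊆ X.1 ∧ TG S (k1.ord ^ (n : Ordinal.{0})) ∧ TG T (k1.ord ^ ω) ∧
        ∀ x ∈ S, ∀ y ∈ T, x < y := by
    rintro n ⟨X, hX⟩
    rw [← absorb n] at hX
    exact hX.split
  choose S T h1 h2 h3 h4 h5 using step
  let X : ℕ → {X : Set V // TG X (k1.ord ^ ω)} :=
    fun n => Nat.rec ⟨A, hA⟩ (fun n X => ⟨T n X, h4 n X⟩) n
  have hX : ∀ n, (X (n + 1)).1 = T n (X n) := fun n => rfl
  have hsub : ∀ m n, m ≤ n → (X n).1 ⊆ (X m).1 := by
    intro m n hmn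
    induction n, hmn using Nat.le_induction with
    | base => exact Set.Subset.refl _
    | succ n hn ih =>
      rw [hX n]
      exact (h2 n (X n)).trans ih
  refine ⟨fun n => S n (X n), fun n => ⟨(h1 n (X n)).trans (hsub 0 n (Nat.zero_le n)), h3 n (X n)⟩,
    ?_⟩
  intro m n hmn x hx y hy
  refine h5 m (X m) x hx y ?_
  rw [← hX m]
  exact hsub (m + 1) n hmn (h1 n (X n) hy)

/-- the blocks -/
theorem exists_blocks (h : TG (Set.univ : Set V) (k1.ord ^ (ω + 2))) :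
    ∃ B : W1 → ℕ → W1 → Set V,
      (∀ z z' m m' e e', z < z' → ∀ x ∈ B z m e, ∀ y ∈ B z' m' e', x < y) ∧
      (∀ z m m' e e', e < e' → ∀ x ∈ B z m e, ∀ y ∈ B z m' e', x < y) ∧
      (∀ z m m' e, m < m' → ∀ x ∈ B z m e, ∀ y ∈ B z m' e, x < y) ∧
      ∀ z m e, TG (B z m e) (k1.ord ^ (m : Ordinal.{0})) := by
  have e1 : k1.ord ^ (ω + 2) = k1.ord ^ (ω + 1) * k1.ord := by
    have : (ω + 2 : Ordinal.{0}) = Order.succ (ω + 1) := by
      rw [Order.succ_eq_add_one, add_assoc, one_add_one_eq_two]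
    rw [this, Ordinal.opow_succ]
  have e2 : k1.ord ^ (ω + 1) = k1.ord ^ ω * k1.ord := by
    rw [← Order.succ_eq_add_one, Ordinal.opow_succ]
  rw [e1] at h
  obtain ⟨A, -, hA2, hA3⟩ := h.blocks
  have h2 : ∀ z, ∃ C : W1 → Set V, (∀ i, C i ⊆ A z) ∧ (∀ i, TG (C i) (k1.ord ^ ω)) ∧
      ∀ i j, i < j → ∀ x ∈ C i, ∀ y ∈ C j, x < y := by
    intro z
    have := hA2 z
    rw [e2] at this
    exact this.blocks
  choose C hC1 hC2 hC3 using h2
  choose D hD1 hD2 using fun z e => pieces (C z e) (hC2 z e)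
  refine ⟨fun z m e => D z e m, ?_, ?_, ?_, ?_⟩
  · intro z z' m m' e e' hlt x hx y hy
    exact hA3 z z' hlt x (hC1 z e ((hD1 z e m).1 hx)) y (hC1 z' e' ((hD1 z' e' m').1 hy))
  · intro z m m' e e' hlt x hx y hy
    exact hC3 z e e' hlt x ((hD1 z e m).1 hx) y ((hD1 z e' m').1 hy)
  · intro z m m' e hlt x hx y hy
    exact hD2 z e m m' hlt x hx y hy
  · intro z m e
    exact (hD1 z e m).2

/-- the final type -/
theorem final_type (B : W1 → ℕ → W1 → Set V)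
    (h1 : ∀ z z' m m' e e', z < z' → ∀ x ∈ B z m e, ∀ y ∈ B z' m' e', x < y)
    (h2 : ∀ z m m' e e', e < e' → ∀ x ∈ B z m e, ∀ y ∈ B z m' e', x < y)
    (X : Set V) (Z : Set W1) (hZ : ¬ Z.Countable)
    (hX : ∀ z ∈ Z, {m : ℕ | Large m (B z m) X}.Infinite) : TG X (k1.ord ^ (ω + 2)) := by
  classical
  have e1 : k1.ord ^ (ω + 2) = k1.ord ^ (ω + 1) * k1.ord := by
    have : (ω + 2 : Ordinal.{0}) = Order.succ (ω + 1) := by
      rw [Order.succ_eq_add_one, add_assoc, one_add_one_eq_two]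
    rw [this, Ordinal.opow_succ]
  have e2 : k1.ord ^ (ω + 1) = k1.ord ^ ω * k1.ord := by
    rw [← Order.succ_eq_add_one, Ordinal.opow_succ]
  rw [e1]
  refine tg_of_blocks (B := fun z => ⋃ m, ⋃ e, B z m e) ?_ Z ((unc_iff Z).1 hZ) ?_
  · intro z z' hlt x hx y hy
    obtain ⟨m, e, hx⟩ := Set.mem_iUnion₂.1 hx
    obtain ⟨m', e', hy⟩ := Set.mem_iUnion₂.1 hy
    exact h1 z z' m m' e e' hlt x hx y hy
  · intro z hz
    rw [e2]
    -- the bounds
    have hb : ∀ w : W1, ∃ b, ∀ m, Large m (B z m) X → ∃ e, w ≤ e ∧ e < b ∧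
        TG (X ∩ B z m e) (k1.ord ^ (m : Ordinal.{0})) := by
      intro w
      have h3 : ∀ m, ∃ e, Large m (B z m) X →
          w ≤ e ∧ TG (X ∩ B z m e) (k1.ord ^ (m : Ordinal.{0})) := by
        intro m
        by_cases hL : Large m (B z m) X
        · obtain ⟨e, he, hwe⟩ := unbdd_of_unc _ hL w
          exact ⟨e, fun _ => ⟨hwe, he⟩⟩
        · exact ⟨w, fun h => absurd h hL⟩
      choose e he using h3
      obtain ⟨b, hb⟩ := bound (Set.range e) (Set.countable_range e)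
      exact ⟨b, fun m hm => ⟨e m, (he m hm).1, hb _ ⟨m, rfl⟩, (he m hm).2⟩⟩
    choose β hβ using hb
    obtain ⟨Z', -, hZ', hs⟩ := sparse β Set.univ univ_unc
    refine tg_of_blocks (B := fun w => if w ∈ Z' then ⋃ m, ⋃ e ∈ {e | w ≤ e ∧ e < β w}, B z m e
      else ∅) ?_ Z' ((unc_iff Z').1 hZ') ?_
    · intro w w' hlt x hx y hy
      by_cases hw : w ∈ Z'
      · by_cases hw' : w' ∈ Z'
        · rw [if_pos hw] at hx
          rw [if_pos hw'] at hy
          obtain ⟨m, hx⟩ := Set.mem_iUnion.1 hx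
          obtain ⟨e, he, hx⟩ := Set.mem_iUnion₂.1 hx
          obtain ⟨m', hy⟩ := Set.mem_iUnion.1 hy
          obtain ⟨e', he', hy⟩ := Set.mem_iUnion₂.1 hy
          exact h2 z m m' e e' ((he.2.trans (hs w hw w' hw' hlt)).trans_le he'.1) x hx y hy
        · rw [if_neg hw'] at hy
          exact absurd hy (Set.notMem_empty y)
      · rw [if_neg hw] at hx
        exact absurd hx (Set.notMem_empty x)
    · intro w hw
      rw [if_pos hw]
      refine tg_of_forall_lt ?_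
      intro c hc
      obtain ⟨n, hn, hcn⟩ := (Ordinal.lt_opow_of_isSuccLimit (zero_lt_one.trans one_lt_k).ne'
        Ordinal.isSuccLimit_omega0).1 hc
      obtain ⟨k, rfl⟩ := Ordinal.lt_omega0.1 hn
      obtain ⟨m, hm, hkm⟩ := (hX z hz).exists_gt k
      obtain ⟨e, he1, he2, he3⟩ := hβ w m hm
      refine ⟨k1.ord ^ (m : Ordinal.{0}), ?_, ?_⟩
      · refine hcn.trans ?_
        refine (Ordinal.opow_lt_opow_iff_right one_lt_k).2 ?_
        exact_mod_cast hkm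
      · refine he3.mono ?_
        rintro v ⟨hv1, hv2⟩
        exact ⟨⟨hv1, Set.mem_iUnion₂.2 ⟨m, e, hv2⟩⟩,
          Set.mem_iUnion.2 ⟨m, Set.mem_biUnion (x := e) ⟨he1, he2⟩ hv2⟩⟩

end Pool.Agent.CP
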