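import Mathlib
import Pool.Agent.Lib_helper68.OG7
import Pool.Agent.Lib_helper80.CP.Base

/-!
# CP: tree orders for graphs without infinite path (transitive version of helper68's lemma)
-/

set_option autoImplicit false
set_option linter.unusedSectionVars false
set_option linter.deprecated false

open Cardinal Ordinal Set

namespace Pool.Agent.CP

open Pool.Agent.H68.OG

section Tree

variable {V : Type} (G : SimpleGraph V)

/-- A ranked graph is contained in the comparability graph of a tree order given by finite
ancestor sets, and this comparability graph has no infinite path either. -/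
theorem ranked_tree {C : Set V} (h : Ranked G C) :
    ∃ out : V → Set V, (∀ v ∈ C, (out v).Finite) ∧ (∀ v ∈ C, out v ⊆ C) ∧
      (∀ v ∈ C, ∀ x ∈ out v, ∀ y ∈ out v, x = y ∨ x ∈ out y ∨ y ∈ out x) ∧
      (∀ v ∈ C, ∀ w ∈ C, G.Adj v w → v ∈ out w ∨ w ∈ out v) ∧
      ((∀ v ∈ C, v ∉ out v) ∧ ∀ v ∈ C, ∀ x ∈ out v, out x ⊆ out v) ∧
      ∀ p : ℕ → V, Function.Injective p → (∀ n, p n ∈ C) →
        ¬ ∀ n, p n ∈ out (p (n + 1)) ∨ p (n + 1) ∈ out (p n) := by
  classical
  induction h with
  | step C S hS _ IH =>
    have IH' : ∀ D : Set V, ∃ out : V → Set V, (∃ u ∈ C \ S, D = {w | Conn G (C \ S) u w}) →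
        ((∀ v ∈ D, (out v).Finite) ∧ (∀ v ∈ D, out v ⊆ D) ∧
      (∀ v ∈ D, ∀ x ∈ out v, ∀ y ∈ out v, x = y ∨ x ∈ out y ∨ y ∈ out x) ∧
      (∀ v ∈ D, ∀ w ∈ D, G.Adj v w → v ∈ out w ∨ w ∈ out v) ∧
      ((∀ v ∈ D, v ∉ out v) ∧ ∀ v ∈ D, ∀ x ∈ out v, out x ⊆ out v) ∧
      ∀ p : ℕ → V, Function.Injective p → (∀ n, p n ∈ D) →
        ¬ ∀ n, p n ∈ out (p (n + 1)) ∨ p (n + 1) ∈ out (p n)) := by
      intro D
      by_cases hD : ∃ u ∈ C \ S, D = {w | Conn G (C \ S) u w}
      · obtain ⟨u, hu, rfl⟩ := hD
        obtain ⟨out, ho⟩ := IH u hu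
        exact ⟨out, fun _ => ho⟩
      · exact ⟨fun _ => ∅, fun h => absurd h hD⟩
    choose Out hOut using IH'
    let comp : V → Set V := fun v => {w | Conn G (C \ S) v w}
    -- enumerate `S`
    obtain ⟨e⟩ : Nonempty (S ↪ ℕ) := by
      have : Countable S := hS.countable.to_subtype
      exact ⟨(Encodable.ofCountable S).equivRangeEncode.toEmbedding.trans
        ⟨fun x => x.1, Subtype.val_injective⟩⟩
    let rk : V → ℕ := fun v => if h : v ∈ S then e ⟨v, h⟩ else 0
    have hrk : ∀ x ∈ S, ∀ y ∈ S, rk x = rk y → x = y := by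
      intro x hx y hy hxy
      simp only [rk, hx, hy, dif_pos] at hxy
      exact congrArg Subtype.val (e.injective hxy)
    -- `S` intersected with `C`
    let out : V → Set V := fun v =>
      if v ∈ S then {x | x ∈ S ∧ x ∈ C ∧ rk x < rk v} else (S ∩ C) ∪ Out (comp v) v
    have houtS : ∀ v, v ∈ S → out v = {x | x ∈ S ∧ x ∈ C ∧ rk x < rk v} := by
      intro v hv
      simp [out, hv]
    have houtN : ∀ v, v ∉ S → out v = (S ∩ C) ∪ Out (comp v) v := by
      intro v hv
      simp [out, hv]
    have hcompsub : ∀ v, v ∈ C → v ∉ S → comp v ⊆ C \ S := by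
      intro v hv hvS w hw
      exact Conn.mem G hw ⟨hv, hvS⟩
    have hcompeq : ∀ v w, w ∈ comp v → comp w = comp v := by
      intro v w hw
      ext x
      exact ⟨fun hx => Conn.trans G hw hx, fun hx => Conn.trans G (Conn.symm G hw) hx⟩
    have hO : ∀ v, v ∈ C → v ∉ S → _ := fun v hv hvS => hOut (comp v) ⟨v, ⟨hv, hvS⟩, rfl⟩
    have hself : ∀ v, v ∈ comp v := fun v => Relation.ReflTransGen.refl
    have hOutsub : ∀ v, v ∈ C → v ∉ S → Out (comp v) v ⊆ comp v := fun v hv hvS =>
      (hO v hv hvS).2.1 v (hself v)
    refine ⟨out, ?_, ?_, ?_, ?_, ⟨?_, ?_⟩, ?_⟩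
    · intro v hv
      by_cases hvS : v ∈ S
      · rw [houtS v hvS]
        exact hS.subset fun x hx => hx.1
      · rw [houtN v hvS]
        exact (hS.subset Set.inter_subset_left).union ((hO v hv hvS).1 v (hself v))
    · intro v hv
      by_cases hvS : v ∈ S
      · rw [houtS v hvS]
        exact fun x hx => hx.2.1
      · rw [houtN v hvS]
        refine Set.union_subset Set.inter_subset_right ?_
        exact (hOutsub v hv hvS).trans ((hcompsub v hv hvS).trans Set.diff_subset)
    · intro v hv x hx y hy
      have hSS : ∀ x ∈ S, x ∈ C → ∀ y ∈ S, y ∈ C → x = y ∨ x ∈ out y ∨ y ∈ out x := by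
        intro x hx hxC y hy hyC
        rcases lt_trichotomy (rk x) (rk y) with h | h | h
        · right; left
          rw [houtS y hy]
          exact ⟨hx, hxC, h⟩
        · left; exact hrk x hx y hy h
        · right; right
          rw [houtS x hx]
          exact ⟨hy, hyC, h⟩
      by_cases hvS : v ∈ S
      · rw [houtS v hvS] at hx hy
        exact hSS x hx.1 hx.2.1 y hy.1 hy.2.1
      · rw [houtN v hvS] at hx hy
        have hnS : ∀ z ∈ Out (comp v) v, z ∈ C ∧ z ∉ S ∧ comp z = comp v := by
          intro z hz
          have h1 := hOutsub v hv hvS hz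
          have h2 := hcompsub v hv hvS h1
          exact ⟨h2.1, h2.2, hcompeq v z h1⟩
        rcases hx with hx | hx <;> rcases hy with hy | hy
        · exact hSS x hx.1 hx.2 y hy.1 hy.2
        · right; left
          rw [houtN y (hnS y hy).2.1]
          exact Or.inl hx
        · right; right
          rw [houtN x (hnS x hx).2.1]
          exact Or.inl hy
        · rcases (hO v hv hvS).2.2.1 v (hself v) x hx y hy with h | h | h
          · exact Or.inl h
          · right; left
            rw [houtN y (hnS y hy).2.1, (hnS y hy).2.2]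
            exact Or.inr h
          · right; right
            rw [houtN x (hnS x hx).2.1, (hnS x hx).2.2]
            exact Or.inr h
    · intro v hv w hw hvw
      by_cases hvS : v ∈ S
      · by_cases hwS : w ∈ S
        · rcases lt_trichotomy (rk v) (rk w) with h | h | h
          · left
            rw [houtS w hwS]
            exact ⟨hvS, hv, h⟩
          · exact absurd (hrk v hvS w hwS h) hvw.ne
          · right
            rw [houtS v hvS]
            exact ⟨hwS, hw, h⟩
        · left
          rw [houtN w hwS]
          exact Or.inl ⟨hvS, hv⟩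
      · by_cases hwS : w ∈ S
        · right
          rw [houtN v hvS]
          exact Or.inl ⟨hwS, hw⟩
        · have hcw : w ∈ comp v := Relation.ReflTransGen.single ⟨⟨hv, hvS⟩, ⟨hw, hwS⟩, hvw⟩
          rcases (hO v hv hvS).2.2.2.1 v (hself v) w hcw hvw with h | h
          · left
            rw [houtN w hwS, hcompeq v w hcw]
            exact Or.inr h
          · right
            rw [houtN v hvS]
            exact Or.inr h
    · intro v hv hvv
      by_cases hvS : v ∈ S
      · rw [houtS v hvS] at hvv
        exact lt_irrefl _ hvv.2.2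
      · rw [houtN v hvS] at hvv
        rcases hvv with h | h
        · exact hvS h.1
        · exact (hO v hv hvS).2.2.2.2.1.1 v (hself v) h
    · intro v hv x hx
      by_cases hvS : v ∈ S
      · rw [houtS v hvS] at hx ⊢
        rw [houtS x hx.1]
        exact fun y hy => ⟨hy.1, hy.2.1, hy.2.2.trans hx.2.2⟩
      · rw [houtN v hvS] at hx ⊢
        rcases hx with hx | hx
        · rw [houtS x hx.1]
          exact fun y hy => Or.inl ⟨hy.1, hy.2.1⟩
        · have h1 := hOutsub v hv hvS hx
          have h2 := hcompsub v hv hvS h1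
          rw [houtN x h2.2, hcompeq v x h1]
          exact Set.union_subset_union_right _ ((hO v hv hvS).2.2.2.2.1.2 v (hself v) x hx)
    · intro p hp hpC hadj
      -- eventually outside `S`
      have hfin : {n | p n ∈ S}.Finite := hS.preimage hp.injOn
      obtain ⟨M, hM⟩ := hfin.bddAbove
      have hout : ∀ n, M + 1 ≤ n → p n ∉ S := by
        intro n hn hnS
        have : n ≤ M := hM hnS
        omega
      have hcomp : ∀ n, comp (p (M + 1 + n)) = comp (p (M + 1)) := by
        intro n
        induction n with
        | zero => rfl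
        | succ n ih =>
          have h1 := hout (M + 1 + n) (by omega)
          have h2 := hout (M + 1 + (n + 1)) (by omega)
          rcases hadj (M + 1 + n) with h | h
          · have h3 : p (M + 1 + n) ∈ out (p (M + 1 + (n + 1))) := h
            rw [houtN _ h2] at h3
            rcases h3 with h3 | h3
            · exact absurd h3.1 h1
            · rw [← ih, hcompeq _ _ (hOutsub _ (hpC _) h2 h3)]
          · have h3 : p (M + 1 + (n + 1)) ∈ out (p (M + 1 + n)) := h
            rw [houtN _ h1] at h3
            rcases h3 with h3 | h3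
            · exact absurd h3.1 h2
            · rw [← ih, hcompeq _ _ (hOutsub _ (hpC _) h1 h3)]
      refine (hO (p (M + 1)) (hpC _) (hout _ le_rfl)).2.2.2.2.2 (fun n => p (M + 1 + n)) ?_ ?_ ?_
      · intro a b hab
        have := hp hab
        omega
      · intro n
        rw [← hcomp n]
        exact hself _
      · intro n
        have h1 := hout (M + 1 + n) (by omega)
        have h2 := hout (M + 1 + (n + 1)) (by omega)
        rcases hadj (M + 1 + n) with h | h
        · left
          have h3 : p (M + 1 + n) ∈ out (p (M + 1 + (n + 1))) := h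
          rw [houtN _ h2, hcomp (n + 1)] at h3
          rcases h3 with h3 | h3
          · exact absurd h3.1 h1
          · exact h3
        · right
          have h3 : p (M + 1 + (n + 1)) ∈ out (p (M + 1 + n)) := h
          rw [houtN _ h1, hcomp n] at h3
          rcases h3 with h3 | h3
          · exact absurd h3.1 h2
          · exact h3

end Tree

end Pool.Agent.CP
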