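import Mathlib
import Pool.Agent.Lib_helper80.CP.Tree

/-!
# CP: forests and the node lemma
-/

set_option autoImplicit false
set_option linter.unusedSectionVars false

open Cardinal Ordinal Set

namespace Pool.Agent.CP

open Pool.Agent.H68.OG

/-- a forest order without infinite chains -/
structure Tr {V : Type} (out : V → Finset V) : Prop where
  irr : ∀ v, v ∉ out v
  trans : ∀ v, ∀ x ∈ out v, out x ⊆ out v
  chain : ∀ v, ∀ x ∈ out v, ∀ y ∈ out v, x = y ∨ x ∈ out y ∨ y ∈ out x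
  fin : ¬ ∃ p : ℕ → V, ∀ n, p n ∈ out (p (n + 1))

theorem exists_forest {V : Type} (G : SimpleGraph V)
    (hG : ¬ ∃ f : ℕ → V, Function.Injective f ∧ ∀ n, G.Adj (f n) (f (n + 1))) :
    ∃ out : V → Finset V, Tr out ∧ ∀ v w, G.Adj v w → v ∈ out w ∨ w ∈ out v := by
  classical
  have hR : Ranked G Set.univ := by
    by_contra hcon
    obtain ⟨f, hf⟩ := exists_path G hcon
    exact hG ⟨f, hf⟩
  obtain ⟨out, h1, -, h3, h4, ⟨h5, h6⟩, h7⟩ := ranked_tree G hR
  refine ⟨fun v => (h1 v trivial).toFinset, ⟨?_, ?_, ?_, ?_⟩, ?_⟩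
  · intro v hv
    rw [Set.Finite.mem_toFinset] at hv
    exact h5 v trivial hv
  · intro v x hx y hy
    rw [Set.Finite.mem_toFinset] at hx hy ⊢
    exact h6 v trivial x hx hy
  · intro v x hx y hy
    rw [Set.Finite.mem_toFinset] at hx hy ⊢
    rw [Set.Finite.mem_toFinset]
    exact h3 v trivial x hx y hy
  · rintro ⟨p, hp⟩
    simp only [Set.Finite.mem_toFinset] at hp
    have hlt : ∀ i j, i < j → p i ∈ out (p j) := by
      intro i j hij
      induction j, hij using Nat.le_induction with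
      | base => exact hp i
      | succ j hj ih => exact h6 _ trivial _ (hp j) ih
    have hinj : Function.Injective p := by
      intro i j hij
      by_contra hne
      rcases lt_or_gt_of_ne hne with h | h
      · have := hlt i j h
        rw [hij] at this
        exact h5 _ trivial this
      · have := hlt j i h
        rw [hij] at this
        exact h5 _ trivial this
    exact h7 p hinj (fun _ => trivial) fun n => Or.inl (hp n)
  · intro v w hvw
    rw [Set.Finite.mem_toFinset, Set.Finite.mem_toFinset]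
    exact h4 v trivial w trivial hvw

/-- closed chains -/
def Cl {V : Type} (out : V → Finset V) (R : Finset V) : Prop :=
  (∀ x ∈ R, out x ⊆ R) ∧ ∀ x ∈ R, ∀ y ∈ R, x = y ∨ x ∈ out y ∨ y ∈ out x

theorem Cl.lt {V : Type} {out : V → Finset V} (hT : Tr out) {x y : V} (h : x ∈ out y) :
    (out x).card < (out y).card := by
  refine Finset.card_lt_card ⟨hT.trans y x h, fun hs => ?_⟩
  exact hT.irr x (hs h)

/-- closed subchains of a closed chain are comparable -/
theorem Cl.total {V : Type} {out : V → Finset V} {R K K' : Finset V}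
    (hR : Cl out R) (hK : Cl out K) (hK' : Cl out K') (h : K ⊆ R) (h' : K' ⊆ R) :
    K ⊆ K' ∨ K' ⊆ K := by
  classical
  by_contra hcon
  push Not at hcon
  obtain ⟨h1, h2⟩ := hcon
  obtain ⟨x, hx, hx'⟩ := Finset.not_subset.1 h1
  obtain ⟨y, hy, hy'⟩ := Finset.not_subset.1 h2
  rcases hR.2 x (h hx) y (h' hy) with h3 | h3 | h3
  · exact hx' (h3 ▸ hy)
  · exact hx' (hK'.1 y hy h3)
  · exact hy' (hK.1 x hx h3)

/-- the first element of `R` above `K` -/
theorem Cl.next {V : Type} {out : V → Finset V} (hT : Tr out) {R K : Finset V}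
    (hR : Cl out R) (hK : Cl out K) (h : K ⊆ R) (hne : R ≠ K) : ∃ y ∈ R, out y = K := by
  classical
  have hne' : (R \ K).Nonempty := by
    rw [Finset.sdiff_nonempty]
    exact fun h' => hne (h'.antisymm h)
  obtain ⟨y, hy, hmin⟩ := Finset.exists_min_image (R \ K) (fun x => (out x).card) hne'
  rw [Finset.mem_sdiff] at hy
  refine ⟨y, hy.1, ?_⟩
  apply Finset.Subset.antisymm
  · intro x hx
    by_contra hxK
    have h1 := hmin x (Finset.mem_sdiff.2 ⟨hR.1 y hy.1 hx, hxK⟩)
    have h2 := Cl.lt hT hx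
    omega
  · intro x hx
    rcases hR.2 x (h hx) y hy.1 with h3 | h3 | h3
    · exact absurd (h3 ▸ hx) hy.2
    · exact h3
    · exact absurd (hK.1 x hx h3) hy.2

/-- the node lemma -/
theorem node {V : Type} {out : V → Finset V} (hT : Tr out) (R : ℕ → Finset V)
    (hR : ∀ m, Cl out (R m)) (M0 : Set ℕ) (hM0 : M0.Infinite) :
    ∃ (M : Set ℕ) (K : Finset V), M ⊆ M0 ∧ M.Infinite ∧ Cl out K ∧ (∀ m ∈ M, K ⊆ R m) ∧
      ((∀ m ∈ M, R m = K) ∨ ∃ y : ℕ → V, (∀ m ∈ M, y m ∈ R m ∧ out (y m) = K) ∧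
        Set.InjOn y M) := by
  classical
  -- a chain `K` which lies in infinitely many `R m` and has no successor of this kind
  have hex : ∃ K : Finset V, Cl out K ∧ {m | m ∈ M0 ∧ K ⊆ R m}.Infinite ∧
      ∀ p, out p = K → {m | m ∈ M0 ∧ p ∈ R m}.Finite := by
    by_contra hcon
    push Not at hcon
    have step : ∀ K : {K : Finset V // Cl out K ∧ {m | m ∈ M0 ∧ K ⊆ R m}.Infinite},
        ∃ p, out p = K.1 ∧ {m | m ∈ M0 ∧ p ∈ R m}.Infinite := by
      rintro ⟨K, hK1, hK2⟩
      exact hcon K hK1 hK2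
    choose p hp1 hp2 using step
    let nxt : {K : Finset V // Cl out K ∧ {m | m ∈ M0 ∧ K ⊆ R m}.Infinite} →
        {K : Finset V // Cl out K ∧ {m | m ∈ M0 ∧ K ⊆ R m}.Infinite} := fun K =>
      ⟨insert (p K) K.1, by
        refine ⟨⟨?_, ?_⟩, ?_⟩
        · intro x hx
          rcases Finset.mem_insert.1 hx with rfl | hx
          · rw [hp1 K]
            exact Finset.subset_insert _ _
          · exact (K.2.1.1 x hx).trans (Finset.subset_insert _ _)
        · intro x hx y hy
          rcases Finset.mem_insert.1 hx with e | hx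
          · rcases Finset.mem_insert.1 hy with e' | hy
            · exact Or.inl (e.trans e'.symm)
            · refine Or.inr (Or.inr ?_)
              rw [e, hp1 K]
              exact hy
          · rcases Finset.mem_insert.1 hy with e' | hy
            · refine Or.inr (Or.inl ?_)
              rw [e', hp1 K]
              exact hx
            · exact K.2.1.2 x hx y hy
        · refine (hp2 K).mono ?_
          rintro m ⟨hm0, hm⟩
          refine ⟨hm0, ?_⟩
          intro x hx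
          rcases Finset.mem_insert.1 hx with rfl | hx
          · exact hm
          · refine (hR m).1 (p K) hm ?_
            rw [hp1 K]
            exact hx⟩
    let K0 : {K : Finset V // Cl out K ∧ {m | m ∈ M0 ∧ K ⊆ R m}.Infinite} :=
      ⟨∅, ⟨by simp, by simp⟩, by simpa using hM0⟩
    let Ks : ℕ → {K : Finset V // Cl out K ∧ {m | m ∈ M0 ∧ K ⊆ R m}.Infinite} :=
      fun n => Nat.rec K0 (fun _ K => nxt K) n
    refine hT.fin ⟨fun n => p (Ks n), fun n => ?_⟩
    show p (Ks n) ∈ out (p (Ks (n + 1)))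
    rw [hp1 (Ks (n + 1))]
    exact Finset.mem_insert_self _ _
  obtain ⟨K, hK1, hK2, hK3⟩ := hex
  by_cases hI : {m | m ∈ M0 ∧ R m = K}.Infinite
  · refine ⟨_, K, fun m hm => hm.1, hI, hK1, ?_, Or.inl fun m hm => hm.2⟩
    rintro m ⟨-, hm⟩
    rw [hm]
  · rw [Set.not_infinite] at hI
    have hJ : {m | m ∈ M0 ∧ K ⊆ R m ∧ R m ≠ K}.Infinite := by
      refine (hK2.sdiff hI).mono ?_
      rintro m ⟨⟨h1, h2⟩, h3⟩
      exact ⟨h1, h2, fun h => h3 ⟨h1, h⟩⟩
    have hy : ∀ m, ∃ y : V, (m ∈ {m | m ∈ M0 ∧ K ⊆ R m ∧ R m ≠ K}) → y ∈ R m ∧ out y = K := by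
      intro m
      by_cases hm : m ∈ {m | m ∈ M0 ∧ K ⊆ R m ∧ R m ≠ K}
      · obtain ⟨y, hy⟩ := Cl.next hT (hR m) hK1 hm.2.1 hm.2.2
        exact ⟨y, fun _ => hy⟩
      · obtain ⟨m', hm'⟩ := hJ.nonempty
        obtain ⟨y, hy⟩ := Cl.next hT (hR m') hK1 hm'.2.1 hm'.2.2
        exact ⟨y, fun h => absurd h hm⟩
    choose y hy using hy
    -- the image is infinite
    have himg : (y '' {m | m ∈ M0 ∧ K ⊆ R m ∧ R m ≠ K}).Infinite := by
      intro hfin
      refine hJ ?_
      refine Set.Finite.subset (hfin.biUnion fun p _ => show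
        ({m | m ∈ M0 ∧ p ∈ R m ∧ out p = K} : Set ℕ).Finite from ?_) ?_
      · by_cases hpK : out p = K
        · exact (hK3 p hpK).subset fun m hm => ⟨hm.1, hm.2.1⟩
        · refine Set.finite_empty.subset ?_
          rintro m ⟨-, -, hm⟩
          exact hpK hm
      · intro m hm
        exact Set.mem_biUnion (x := y m) ⟨m, hm, rfl⟩ ⟨hm.1, (hy m hm).1, (hy m hm).2⟩
    have hex2 : ∃ M ⊆ {m | m ∈ M0 ∧ K ⊆ R m ∧ R m ≠ K},
        y '' M = y '' {m | m ∈ M0 ∧ K ⊆ R m ∧ R m ≠ K} ∧ Set.InjOn y M := by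
      have hc : ∀ p : V, ∃ m, p ∈ y '' {m | m ∈ M0 ∧ K ⊆ R m ∧ R m ≠ K} →
          m ∈ {m | m ∈ M0 ∧ K ⊆ R m ∧ R m ≠ K} ∧ y m = p := by
        intro p
        by_cases hp : p ∈ y '' {m | m ∈ M0 ∧ K ⊆ R m ∧ R m ≠ K}
        · obtain ⟨m, hm⟩ := hp
          exact ⟨m, fun _ => hm⟩
        · exact ⟨0, fun h => absurd h hp⟩
      choose c hc using hc
      refine ⟨c '' (y '' {m | m ∈ M0 ∧ K ⊆ R m ∧ R m ≠ K}), ?_, ?_, ?_⟩
      · rintro _ ⟨p, hp, rfl⟩
        exact (hc p hp).1
      · ext p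
        constructor
        · rintro ⟨_, ⟨q, hq, rfl⟩, rfl⟩
          rw [(hc q hq).2]
          exact hq
        · intro hp
          exact ⟨c p, ⟨p, hp, rfl⟩, (hc p hp).2⟩
      · rintro _ ⟨p, hp, rfl⟩ _ ⟨q, hq, rfl⟩ h
        rw [(hc p hp).2, (hc q hq).2] at h
        rw [h]
    obtain ⟨M, hM1, hM2, hM3⟩ := hex2
    refine ⟨M, K, ?_, ?_, hK1, ?_, Or.inr ⟨y, ?_, hM3⟩⟩
    · exact fun m hm => (hM1 hm).1
    · intro hfin
      refine himg ?_
      rw [← hM2]
      exact hfin.image y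
    · exact fun m hm => (hM1 hm).2.1
    · exact fun m hm => hy m (hM1 hm)

end Pool.Agent.CP
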