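import Mathlib
import Pool.Agent.Lib_helper80.CP.Base
import Pool.Agent.Lib_helper80.CT.Guess

/-!
# CP: the combinatorial principle from `cof(M) > ℵ₁`
-/

set_option autoImplicit false
set_option linter.unusedSectionVars false

open Cardinal Ordinal Set

namespace Pool.Agent.CP

/-- for `Ω` many infinite partial sequences of finite partial functions `F z n` there is
`g n : ℕ → ℕ` such that for each `z` infinitely many `F z n` are disjoint from `g n` -/
def HH (Ω : Type) : Prop :=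
  ∀ (N : Ω → Set ℕ) (F : Ω → ℕ → Finset (ℕ × ℕ)), (∀ z, (N z).Infinite) →
    (∀ z n, ∀ p ∈ F z n, ∀ q ∈ F z n, p.1 = q.1 → p = q) →
    ∃ g : ℕ → ℕ → ℕ, ∀ z, {n | n ∈ N z ∧ ∀ p ∈ F z n, g n p.1 ≠ p.2}.Infinite

/-- no `Ω` functions dominate all functions -/
def NDom (Ω : Type) : Prop := ∀ D : Ω → ℕ → ℕ, ∃ f : ℕ → ℕ, ∀ z, ∃ n, D z n < f n

/-- for `Ω` functions there is one that is eventually different from all -/
def EDif (Ω : Type) : Prop := ∀ E : Ω → ℕ → ℕ, ∃ f : ℕ → ℕ, ∀ z, {n | f n = E z n}.Finite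

theorem hh_of_edif {Ω : Type} (h : EDif Ω) : HH Ω := by
  classical
  intro N F hN hF
  obtain ⟨f, hf⟩ := h (fun z k => if hex : ∃ p ∈ F z (Nat.unpair k).1, p.1 = (Nat.unpair k).2 then
    hex.choose.2 else 0)
  refine ⟨fun n i => f (Nat.pair n i), fun z => ?_⟩
  have h1 : {n | ¬ ∀ p ∈ F z n, f (Nat.pair n p.1) ≠ p.2}.Finite := by
    refine ((hf z).image (fun k => (Nat.unpair k).1)).subset ?_
    intro n hn
    have hn' : ¬ ∀ p ∈ F z n, f (Nat.pair n p.1) ≠ p.2 := hn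
    push Not at hn'
    obtain ⟨p, hp, hpn⟩ := hn'
    refine ⟨Nat.pair n p.1, ?_, by simp⟩
    show f (Nat.pair n p.1) = _
    have hex : ∃ q ∈ F z (Nat.unpair (Nat.pair n p.1)).1, q.1 = (Nat.unpair (Nat.pair n p.1)).2 := by
      rw [Nat.unpair_pair]
      exact ⟨p, hp, rfl⟩
    rw [dif_pos hex, hpn]
    have h3 : ∀ q, (q ∈ F z (Nat.unpair (Nat.pair n p.1)).1 ∧
        q.1 = (Nat.unpair (Nat.pair n p.1)).2) → q = p := by
      rintro q ⟨hq1, hq2⟩
      rw [Nat.unpair_pair] at hq1 hq2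
      exact hF z n _ hq1 p hp hq2
    rw [h3 _ hex.choose_spec]
  refine ((hN z).sdiff h1).mono ?_
  rintro n ⟨hn1, hn2⟩
  refine ⟨hn1, ?_⟩
  by_contra hcon
  exact hn2 hcon

theorem hh_of_ndom {Ω : Type} (e : Ω ≃ Ω × ℕ) (h : NDom Ω) : HH Ω := by
  classical
  intro N F hN _
  -- the bounds
  let H : Ω → ℕ → ℕ := fun z n => (F z n).sup (fun p => p.2 + 1)
  let D : Ω → ℕ → ℕ := fun z n => H z (Pool.Agent.CT.nb (N z) n)
  obtain ⟨f, hf⟩ := h (fun z n => D (e z).1 (n + (e z).2))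
  let G : ℕ → ℕ := fun n => (Finset.range (n + 1)).sup f
  have hG : ∀ a b, a ≤ b → G a ≤ G b := by
    intro a b hab
    refine Finset.sup_mono ?_
    intro x hx
    rw [Finset.mem_range] at hx ⊢
    omega
  have hfG : ∀ n, f n ≤ G n := fun n =>
    Finset.le_sup (f := f) (Finset.mem_range.2 (Nat.lt_succ_self n))
  refine ⟨fun n _ => G n, fun z => ?_⟩
  refine Set.infinite_of_forall_exists_gt ?_
  intro k
  obtain ⟨n, hn⟩ := hf (e.symm (z, k + 1))
  simp only [Equiv.apply_symm_apply] at hn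
  obtain ⟨h1, h2⟩ := Pool.Agent.CT.nb_spec (hN z) (n + (k + 1))
  refine ⟨Pool.Agent.CT.nb (N z) (n + (k + 1)), ⟨h1, ?_⟩, by omega⟩
  intro p hp heq
  have h3 : p.2 + 1 ≤ H z (Pool.Agent.CT.nb (N z) (n + (k + 1))) :=
    Finset.le_sup (f := fun p : ℕ × ℕ => p.2 + 1) hp
  have h4 : H z (Pool.Agent.CT.nb (N z) (n + (k + 1))) < f n := hn
  have h5 : f n ≤ G (Pool.Agent.CT.nb (N z) (n + (k + 1))) :=
    (hfG n).trans (hG _ _ (by omega))
  have h6 : G (Pool.Agent.CT.nb (N z) (n + (k + 1))) = p.2 := heq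
  omega

theorem w1_equiv : Nonempty (W1 ≃ W1 × ℕ) := by
  have h : #(W1 × ℕ) = #W1 := by
    have h0 : #W1 = k1 := by rw [Cardinal.mk_toType, Cardinal.card_ord]
    rw [Cardinal.mk_prod, Cardinal.lift_id, Cardinal.lift_id, Cardinal.mk_nat, h0]
    exact Cardinal.mul_eq_left (Cardinal.aleph0_le_aleph 1) (Cardinal.aleph0_le_aleph 1)
      Cardinal.aleph0_ne_zero
  exact Cardinal.eq.1 h.symm

end Pool.Agent.CP
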