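import Mathlib
import Pool.Agent.Lib_helper80.CP.Blocks
import Pool.Agent.Lib_helper80.CP.Free
import Pool.Agent.Lib_helper80.CP.Forest
import Pool.Agent.Lib_helper80.CP.HH

/-!
# CP: the positive theorem at `ω₁ ^ (ω + 2)`
-/

set_option autoImplicit false
set_option linter.unusedSectionVars false

open Cardinal Ordinal Set

namespace Pool.Agent.CP

open Pool.Agent.H68.OG

variable {V : Type} [LinearOrder V] [WellFoundedLT V] [Nonempty V]

/-- the free set from pieces with empty kernels -/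
theorem finish (B : W1 → ℕ → W1 → Set V)
    (h1 : ∀ z z' m m' e e', z < z' → ∀ x ∈ B z m e, ∀ y ∈ B z' m' e', x < y)
    (h2 : ∀ z m m' e e', e < e' → ∀ x ∈ B z m e, ∀ y ∈ B z m' e', x < y)
    (out : V → Finset V) (hT : Tr out) (r : V → W1) (hr : Function.Injective r)
    (Z : Set W1) (hZ : ¬ Z.Countable) (G : W1 → Set ℕ) (hG : ∀ z ∈ Z, (G z).Infinite)
    (T : W1 → ℕ → Set V) (hL : ∀ z ∈ Z, ∀ m ∈ G z, Large m (B z m) (T z m))
    (hfree : ∀ z ∈ Z, ∀ m ∈ G z, ∀ z' ∈ Z, ∀ m' ∈ G z', ∀ u ∈ T z' m',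
      ¬ Large m (B z m) {x | x ∈ T z m ∧ u ∈ out x}) :
    ∃ X : Set V, (∀ x ∈ X, ∀ y ∈ X, y ∉ out x) ∧ TG X (k1.ord ^ (ω + 2)) := by
  classical
  let W : Set V := {u | ∃ z ∈ Z, ∃ m ∈ G z, u ∈ T z m}
  let f : V → Finset V := fun v => (out v).filter (fun u => u ∈ W)
  let P : Type := {p : W1 × ℕ // p.1 ∈ Z ∧ p.2 ∈ G p.1}
  have hW1 : #W1 = k1 := by rw [Cardinal.mk_toType, Cardinal.card_ord]
  have hP : #P ≤ k1 := by
    refine (Cardinal.mk_subtype_le _).trans ?_
    rw [Cardinal.mk_prod, Cardinal.lift_id, Cardinal.lift_id, Cardinal.mk_nat, hW1]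
    exact (Cardinal.mul_eq_left (Cardinal.aleph0_le_aleph 1) (Cardinal.aleph0_le_aleph 1)
      Cardinal.aleph0_ne_zero).le
  obtain ⟨X, hX1, hX2⟩ := main_lemma' (κ := k1) (ν := ℵ₀) k1_reg le_rfl
    Cardinal.aleph0_lt_aleph_one f r hr (P := P) hP
    (fun p i => T p.1.1 p.1.2 ∩ B p.1.1 p.1.2 i) (fun p => (p.1.2 : Ordinal.{0}))
    (fun p => card_nat_lt p.1.2) (by
      rintro ⟨⟨z, m⟩, hz, hm⟩
      refine ⟨?_, ?_⟩
      · intro i j hij x hx y hy
        exact h2 z m m i j hij x hx.2 y hy.2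
      · intro Zc hZc _
        rw [← unc_iff]
        have hZcc : (Zc ∩ W).Countable := ((cnt_iff Zc).2 hZc).mono Set.inter_subset_left
        have h3 := (hL z hz m hm).remove hZcc (fun u => {v | u ∈ out v}) (by
          rintro u ⟨-, z', hz', m', hm', hu⟩
          exact hfree z hz m hm z' hz' m' hm' u hu)
        refine fun hc => h3 (hc.mono ?_)
        intro i hi
        refine TG.mono ?_ hi
        rintro v ⟨⟨hv1, hv2⟩, hv3⟩
        refine ⟨⟨hv1, hv3⟩, ?_⟩
        intro u hu huZ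
        rw [Finset.mem_filter] at hu
        exact hv2 (Set.mem_biUnion (x := u) ⟨huZ, hu.2⟩ hu.1))
  refine ⟨X ∩ W, ?_, ?_⟩
  · rintro x ⟨hx, -⟩ y ⟨hy, hyW⟩ hmem
    have hne : x ≠ y := by
      intro h
      rw [h] at hmem
      exact hT.irr y hmem
    exact hX1 x hx y hy hne (Finset.mem_filter.2 ⟨hmem, hyW⟩)
  · refine final_type B h1 h2 _ Z hZ ?_
    intro z hz
    refine (hG z hz).mono ?_
    intro m hm
    have h3 := hX2 ⟨(z, m), hz, hm⟩
    rw [← unc_iff] at h3
    refine fun hc => h3 (hc.mono ?_)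
    intro i hi
    refine TG.mono ?_ hi
    rintro v ⟨hv1, hv2, hv3⟩
    exact ⟨⟨hv1, z, hz, m, hm, hv2⟩, hv3⟩

/-- the positive theorem for forests -/
theorem forest_pos (hH : HH W1) (hV : TG (Set.univ : Set V) (k1.ord ^ (ω + 2)))
    (r : V → W1) (hr : Function.Injective r) (out : V → Finset V) (hT : Tr out) :
    ∃ X : Set V, (∀ x ∈ X, ∀ y ∈ X, y ∉ out x) ∧ TG X (k1.ord ^ (ω + 2)) := by
  classical
  obtain ⟨B, h1, h2, h3, h4⟩ := exists_blocks hV
  -- the coordinates
  have huniq : ∀ x z m e z' m' e', x ∈ B z m e → x ∈ B z' m' e' → z = z' ∧ m = m' ∧ e = e' := by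
    intro x z m e z' m' e' hx hx'
    have hz : z = z' := by
      rcases lt_trichotomy z z' with h | h | h
      · exact absurd (h1 z z' m m' e e' h x hx x hx') (lt_irrefl _)
      · exact h
      · exact absurd (h1 z' z m' m e' e h x hx' x hx) (lt_irrefl _)
    subst hz
    have he : e = e' := by
      rcases lt_trichotomy e e' with h | h | h
      · exact absurd (h2 z m m' e e' h x hx x hx') (lt_irrefl _)
      · exact h
      · exact absurd (h2 z m' m e' e h x hx' x hx) (lt_irrefl _)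
    subst he
    rcases lt_trichotomy m m' with h | h | h
    · exact absurd (h3 z m m' e h x hx x hx') (lt_irrefl _)
    · exact ⟨rfl, h, rfl⟩
    · exact absurd (h3 z m' m e h x hx' x hx) (lt_irrefl _)
  -- the kernels
  have hker : ∀ z m, ∃ S ⊆ ⋃ e, B z m e, Large m (B z m) S ∧ ∃ (n : ℕ) (R : Finset V),
      (∀ x ∈ S, (out x).card = n ∧ R ⊆ out x) ∧
      ∀ p ∉ R, ¬ Large m (B z m) {x | x ∈ S ∧ p ∈ out x} := by
    intro z m
    refine kernel ?_ out
    refine fun hc => univ_unc (hc.mono ?_)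
    intro e _
    refine (h4 z m e).mono ?_
    intro v hv
    exact ⟨Set.mem_iUnion.2 ⟨e, hv⟩, hv⟩
  choose S hS1 hS2 n R hS3 hS4 using hker
  have hCl : ∀ z m, Cl out (R z m) := by
    intro z m
    refine ⟨?_, ?_⟩
    · intro p hp q hq
      by_contra hqR
      refine hS4 z m q hqR ((hS2 z m).mono ?_)
      intro x hx
      exact ⟨hx, hT.trans x p ((hS3 z m x hx).2 hp) hq⟩
    · obtain ⟨x, hx⟩ := (hS2 z m).nonempty
      intro p hp q hq
      exact hT.chain x p ((hS3 z m x hx).2 hp) q ((hS3 z m x hx).2 hq)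
  -- the nodes
  choose M K hM0 hM hK hKR hty using fun z => node hT (R z) (hCl z) Set.univ Set.infinite_univ
  -- blocks of the vertices
  let bz : V → W1 := fun x => if h : ∃ z m e, x ∈ B z m e then h.choose else Classical.arbitrary W1
  have hbz : ∀ x z m e, x ∈ B z m e → bz x = z := by
    intro x z m e hx
    have hex : ∃ z m e, x ∈ B z m e := ⟨z, m, e, hx⟩
    have : bz x = hex.choose := dif_pos hex
    rw [this]
    obtain ⟨m', e', h'⟩ := hex.choose_spec
    exact (huniq x _ _ _ _ _ _ h' hx).1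
  -- uniformization
  have hfreeK : ∀ Z : Set W1, ¬ Z.Countable → ∃ Z' ⊆ Z, ¬ Z'.Countable ∧
      (∃ s, ∀ z ∈ Z', (K z).card = s) ∧
      ∀ z ∈ Z', ∀ z' ∈ Z', z ≠ z' → ∀ x ∈ K z, bz x ≠ z' := by
    intro Z hZ
    obtain ⟨s, hs⟩ := unc_union Z (fun s => {z | (K z).card = s}) hZ
      (fun z _ => Set.mem_iUnion.2 ⟨_, rfl⟩)
    obtain ⟨Z1, hZ1, hZ1u, Δ, -, -, hΔ⟩ := weak_delta (fun z => (K z).image bz) _ hs
    have hZ2u : ¬ (Z1 \ (Δ : Set W1)).Countable := by
      intro hc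
      refine hZ1u ((hc.union Δ.countable_toSet).mono ?_)
      intro z hz
      by_cases hzΔ : z ∈ (Δ : Set W1)
      · exact Or.inr hzΔ
      · exact Or.inl ⟨hz, hzΔ⟩
    have hb : ∀ z, ∃ b, (∀ z' ∈ (K z).image bz, z' < b) ∧
        (z ∉ Δ → ∀ z' ∈ Z1, z ∈ (K z').image bz → z' < b) := by
      intro z
      by_cases hz : z ∈ Δ
      · obtain ⟨b, hb⟩ := bound ((K z).image bz : Finset W1) (Finset.countable_toSet _)
        exact ⟨b, hb, fun h => absurd hz h⟩
      · obtain ⟨b, hb⟩ := bound (((K z).image bz : Finset W1) ∪ {z' | z' ∈ Z1 ∧ z ∈ (K z').image bz})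
          ((Finset.countable_toSet _).union (hΔ z hz))
        exact ⟨b, fun z' hz' => hb z' (Or.inl hz'), fun _ z' hz' h => hb z' (Or.inr ⟨hz', h⟩)⟩
    choose β hβ1 hβ2 using hb
    obtain ⟨Z2, hZ2, hZ2u', hs2⟩ := sparse β _ hZ2u
    refine ⟨Z2, fun z hz => (hZ1 (hZ2 hz).1).1, hZ2u', ⟨s, fun z hz => (hZ1 (hZ2 hz).1).2⟩, ?_⟩
    intro z hz z' hz' hne x hx hbx
    have hmem : z' ∈ (K z).image bz := Finset.mem_image.2 ⟨x, hx, hbx⟩
    rcases lt_or_gt_of_ne hne with h | h
    · exact absurd ((hβ1 z z' hmem).trans (hs2 z hz z' hz' h)) (lt_irrefl _)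
    · have h5 := hβ2 z' (fun h6 => (hZ2 hz').2 (by exact_mod_cast h6)) z (hZ2 hz).1 hmem
      exact absurd (h5.trans (hs2 z' hz' z hz h)) (lt_irrefl _)
  -- the chain `K z` meets only finitely many `B z m`
  have hKm : ∀ z, {m | ∃ x ∈ K z, ∃ e, x ∈ B z m e}.Finite := by
    intro z
    have : ∀ x ∈ K z, {m | ∃ e, x ∈ B z m e}.Finite := by
      intro x _
      refine Set.Subsingleton.finite ?_
      rintro m ⟨e, he⟩ m' ⟨e', he'⟩
      exact (huniq x _ _ _ _ _ _ he he').2.1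
    refine ((K z).finite_toSet.biUnion this).subset ?_
    rintro m ⟨x, hx, hm⟩
    exact Set.mem_biUnion (x := x) hx hm
  -- conflicts with `K z`
  have hconf : ∀ Z' : Set W1, (∀ z ∈ Z', ∀ z' ∈ Z', z ≠ z' → ∀ x ∈ K z, bz x ≠ z') →
      ∀ z ∈ Z', ∀ z' ∈ Z', ∀ m', (¬ ∃ x ∈ K z', ∃ e, x ∈ B z' m' e) → ∀ u ∈ S z' m',
        u ∉ K z := by
    intro Z' hZ' z hz z' hz' m' hm' u hu huK
    obtain ⟨e, he⟩ := Set.mem_iUnion.1 (hS1 z' m' hu)
    by_cases hzz : z = z'
    · subst hzz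
      exact hm' ⟨u, huK, e, he⟩
    · exact hZ' z hz z' hz' hzz u huK (hbz u z' m' e he)
  -- the two types
  by_cases hI : ¬ {z | ∀ m ∈ M z, R z m = K z}.Countable
  · obtain ⟨Z', hZ'1, hZ'2, -, hZ'3⟩ := hfreeK _ hI
    refine finish B h1 h2 out hT r hr Z' hZ'2 (fun z => M z \ {m | ∃ x ∈ K z, ∃ e, x ∈ B z m e})
      (fun z _ => (hM z).sdiff (hKm z)) S (fun z _ m _ => hS2 z m) ?_
    intro z hz m hm z' hz' m' hm' u hu
    refine hS4 z m u ?_
    rw [hZ'1 hz m hm.1]
    exact hconf Z' hZ'3 z hz z' hz' m' hm'.2 u hu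
  · rw [not_not] at hI
    have hII : ¬ {z : W1 | ∃ y : ℕ → V, (∀ m ∈ M z, y m ∈ R z m ∧ out (y m) = K z) ∧
        Set.InjOn y (M z)}.Countable := by
      intro hc
      refine univ_unc ((hI.union hc).mono ?_)
      intro z _
      exact hty z
    obtain ⟨Z1, hZ1, hZ1u, ⟨s, hs⟩, hZ1f⟩ := hfreeK _ hII
    have hy : ∀ z, ∃ y : ℕ → V, z ∈ Z1 → (∀ m ∈ M z, y m ∈ R z m ∧ out (y m) = K z) ∧
        Set.InjOn y (M z) := by
      intro z
      by_cases hz : z ∈ Z1
      · obtain ⟨y, hy⟩ := hZ1 hz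
        exact ⟨y, fun _ => hy⟩
      · exact ⟨fun _ => Classical.arbitrary V, fun h => absurd h hz⟩
    choose y hy using hy
    -- the coding
    have hVinf : Infinite V := by
      obtain ⟨z, hz⟩ : Z1.Nonempty := by
        rw [Set.nonempty_iff_ne_empty]
        intro h
        rw [h] at hZ1u
        exact hZ1u Set.countable_empty
      have : (y z '' M z).Infinite := (hM z).image (hy z hz).2
      exact Set.infinite_univ_iff.1 (this.mono (Set.subset_univ _))
    obtain ⟨ι⟩ : Nonempty (ℕ ↪ V) := ⟨Infinite.natEmbedding V⟩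
    obtain ⟨ν, Z2, hZ2, hZ2u, hν⟩ := coding r hr
      (fun z => if z ∈ Z1 then y z '' M z else Set.range ι) (by
        intro z
        by_cases hz : z ∈ Z1
        · rw [if_pos hz]
          exact (hM z).image (hy z hz).2
        · rw [if_neg hz]
          exact Set.infinite_range_of_injective ι.injective) (by
        intro z
        by_cases hz : z ∈ Z1
        · rw [if_pos hz]
          exact (Set.to_countable (M z)).image _
        · rw [if_neg hz]
          exact Set.countable_range _) Z1 hZ1u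
    have hν' : ∀ z ∈ Z2, ((fun m => ν (y z m)) '' M z).Infinite := by
      intro z hz
      have := hν z hz
      rw [if_pos (hZ2 hz), Set.image_image] at this
      exact this
    -- the level of a code
    have hmm : ∀ z n, ∃ m, n ∈ (fun m => ν (y z m)) '' M z → m ∈ M z ∧ ν (y z m) = n := by
      intro z n
      by_cases hn : n ∈ (fun m => ν (y z m)) '' M z
      · obtain ⟨m, hm⟩ := hn
        exact ⟨m, fun _ => hm⟩
      · exact ⟨0, fun h => absurd h hn⟩
    choose mm hmm using hmm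
    -- the colours
    choose k hk using fun z m => (hS2 z m).split
    let kk : V → ℕ := fun x => if h : ∃ p : W1 × ℕ × W1, x ∈ B p.1 p.2.1 p.2.2 then
      k h.choose.1 h.choose.2.1 h.choose.2.2 else 0
    have hkk : ∀ x z m e, x ∈ B z m e → kk x = k z m e := by
      intro x z m e hx
      have hex : ∃ p : W1 × ℕ × W1, x ∈ B p.1 p.2.1 p.2.2 := ⟨(z, m, e), hx⟩
      have h5 : kk x = k hex.choose.1 hex.choose.2.1 hex.choose.2.2 := dif_pos hex
      obtain ⟨e1, e2, e3⟩ := huniq x _ _ _ _ _ _ hex.choose_spec hx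
      rw [h5, e1, e2, e3]
    obtain ⟨g, hg⟩ := hH (fun z => if z ∈ Z2 then (fun m => ν (y z m)) '' M z else Set.univ)
      (fun z n => (R z (mm z n)).image (fun x => ((out x).card, kk x))) (by
        intro z
        by_cases hz : z ∈ Z2
        · rw [if_pos hz]
          exact hν' z hz
        · rw [if_neg hz]
          exact Set.infinite_univ) (by
        intro z n p hp q hq hpq
        obtain ⟨x, hx, rfl⟩ := Finset.mem_image.1 hp
        obtain ⟨x', hx', rfl⟩ := Finset.mem_image.1 hq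
        rcases (hCl z (mm z n)).2 x hx x' hx' with h5 | h5 | h5
        · rw [h5]
        · have := Cl.lt hT h5
          simp only at hpq
          omega
        · have := Cl.lt hT h5
          simp only at hpq
          omega)
    -- the good levels
    let G : W1 → Set ℕ := fun z => {m | m ∈ M z ∧ m = mm z (ν (y z m)) ∧
      (∀ p ∈ (R z m).image (fun x => ((out x).card, kk x)), g (ν (y z m)) p.1 ≠ p.2)} \
      {m | ∃ x ∈ K z, ∃ e, x ∈ B z m e}
    have hGinf : ∀ z ∈ Z2, (G z).Infinite := by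
      intro z hz
      have h5 := hg z
      rw [if_pos hz] at h5
      refine Set.Infinite.sdiff ?_ (hKm z)
      refine (h5.image (f := mm z) ?_).mono ?_
      · rintro a ⟨ha, -⟩ b ⟨hb, -⟩ hab
        rw [← (hmm z a ha).2, ← (hmm z b hb).2, hab]
      · rintro m ⟨a, ⟨ha1, ha2⟩, rfl⟩
        obtain ⟨h6, h7⟩ := hmm z a ha1
        refine ⟨h6, ?_, ?_⟩
        · rw [h7]
        · rw [h7]
          exact ha2
    refine finish B h1 h2 out hT r hr Z2 hZ2u G hGinf
      (fun z m => S z m ∩ {x | ∃ i, x ∈ B z m i ∧ k z m i = g (ν (y z m)) (n z m)})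
      (fun z _ m _ => hk z m _) ?_
    rintro z hz m ⟨⟨hm1, -, hm3⟩, hm4⟩ z' hz' m' ⟨⟨hm'1, -, -⟩, hm'4⟩ u ⟨huS, e, hue, huk⟩
    have huR : u ∉ R z m := by
      intro huR
      have huK : u ∉ K z := hconf Z1 hZ1f z (hZ2 hz) z' (hZ2 hz') m' hm'4 u huS
      obtain ⟨hun, hRu⟩ := hS3 z' m' u huS
      have hsub : R z' m' ⊆ R z m := hRu.trans ((hCl z m).1 u huR)
      have hKK : K z = K z' := by
        have hc : (K z).card = (K z').card := by rw [hs z (hZ2 hz), hs z' (hZ2 hz')]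
        rcases Cl.total (hCl z m) (hK z) (hK z') (hKR z m hm1) ((hKR z' m' hm'1).trans hsub)
          with h5 | h5
        · exact Finset.eq_of_subset_of_card_le h5 hc.ge
        · exact (Finset.eq_of_subset_of_card_le h5 hc.le).symm
      obtain ⟨hy1, hy2⟩ := (hy z (hZ2 hz)).1 m hm1
      obtain ⟨hy1', hy2'⟩ := (hy z' (hZ2 hz')).1 m' hm'1
      have hyy : y z' m' = y z m := by
        rcases (hCl z m).2 _ (hsub hy1') _ hy1 with h5 | h5 | h5
        · exact h5
        · rw [hy2, hKK, ← hy2'] at h5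
          exact absurd h5 (hT.irr _)
        · rw [hy2', ← hKK, ← hy2] at h5
          exact absurd h5 (hT.irr _)
      refine hm3 ((out u).card, kk u) (Finset.mem_image.2 ⟨u, huR, rfl⟩) ?_
      show g (ν (y z m)) (out u).card = kk u
      rw [hkk u z' m' e hue, huk, hyy, hun]
    refine fun hc => hS4 z m u huR (hc.mono ?_)
    rintro x ⟨hx1, hx2⟩
    exact ⟨hx1.1, hx2⟩

/-- the positive theorem for graphs -/
theorem graph_pos (hH : HH W1) (hV : TG (Set.univ : Set V) (k1.ord ^ (ω + 2)))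
    (r : V → W1) (hr : Function.Injective r) (G : SimpleGraph V)
    (hG : ¬ ∃ f : ℕ → V, Function.Injective f ∧ ∀ n, G.Adj (f n) (f (n + 1))) :
    ∃ X : Set V, (∀ x ∈ X, ∀ y ∈ X, ¬ G.Adj x y) ∧ TG X (k1.ord ^ (ω + 2)) := by
  obtain ⟨out, hT, hout⟩ := exists_forest G hG
  obtain ⟨X, hX1, hX2⟩ := forest_pos hH hV r hr out hT
  refine ⟨X, ?_, hX2⟩
  intro x hx y hy hadj
  rcases hout x y hadj with h | h
  · exact hX1 y hy x hx h
  · exact hX1 x hx y hy h

end Pool.Agent.CP
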